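import Pool.Agent.H429R4.TR.TriMain

/-!
# Probabilistic circuits with arbitrary gates for triangle detection

The gates of a circuit (`Circuit`) compute arbitrary functions of the multiset of the labels and
values on their wires, with unbounded fan-in and values in an arbitrary set. The wiring of a gate
consists of the entry of the adjacency matrix it reads and of the labels and functions on its wires
(as functions of the graph); `numWirings` is the number of different transforms of the wirings of
all gates under relabelings of the vertices.  No symmetry of the circuits is assumed.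

1. Let the vertex set consist of three families of `r` pairs of vertices, and a rest. There is an
   elementary abelian group `Γ` of at most `2 r` permutations (swaps of the pairs of one family)
   such that every probabilistic circuit that detects triangles with error probability at most `ε`
   has an expected number of wirings up to `Γ × Γ × Γ` of at least `(1 - 2 ε) r ^ 3`.
2. Brute force has at most `n ^ 3 + n ^ 2 + 1` wirings up to all relabelings of the `n` vertices.
-/

set_option autoImplicit false

namespace Pool.Agent.Results.MP_ad5e8e_lc.CubicWirings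

open Finset
open Pool.Agent.H429R4.FW Pool.Agent.H429R4.TR

open Classical in
theorem result :
    -- probabilistic circuits
    (∀ r : ℕ, 1 ≤ r → ∃ Γ : AddSubgroup (Fin r → ZMod 2), Nat.card Γ ≤ 2 * r ∧
      ∀ (Z Ω : Type) [Fintype Z] [Fintype Ω] (p : Ω → ℝ),
        (∀ ω, 0 ≤ p ω) → ∑ ω, p ω = 1 →
        ∀ (D L : Type) (dec : D → Prop) (C : Ω → Circuit Bool (Kx r Z × Kx r Z) D L) (ε : ℝ),
          (∀ G : SimpleGraph (Kx r Z), ∑ ω with ¬ RightT (C ω) dec G, p ω ≤ ε) →
          ∀ A : Set (Kx r Z → Kx r Z),
            (∀ x : Fin 3 → Fin r → ZMod 2, (∀ i, x i ∈ Γ) → swG x ∈ A) →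
            (1 - 2 * ε) * (r : ℝ) ^ 3 ≤
              ∑ ω, p ω * (numWirings adjG (C ω) (pullG '' A) : ℝ)) ∧
    -- brute force
    (∀ (V : Type) [Fintype V], ∃ C : Circuit Bool (V × V) Bool Unit,
      (∀ G : SimpleGraph V, RightT C (fun d => d = true) G) ∧
      numWirings adjG C (pullG '' {f | ∃ π : Equiv.Perm V, f = π}) ≤
        Fintype.card V ^ 3 + Fintype.card V ^ 2 + 1) :=
  ⟨triangle_bound, fun V _ => ⟨bruteC V, bruteC_right, brute_wirings⟩⟩

end Pool.Agent.Results.MP_ad5e8e_lc.CubicWirings
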